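import Mathlib
import Pool.Agent.W635.CHEx
import Pool.Agent.W635.CHZfc

/-!
# MP_7c0f46_gt: small sets of reals need not be productively Hurewicz or Menger when `𝔟 = 𝔡`

The first part says that a combinatorial principle is forced by a notion of forcing `P` (which
exists outright). `P` adds `ω₂` Cohen reals and then is a finite support iteration of Hechler
forcing of length `ω₂`, presented through names for promises. See `Pool.Agent.W635.CHDefs` for the
principle (`Principle` is the statement about actual objects, `ForcedPrinciple` the same statement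
in the forcing language) and `Pool.Agent.Helper669.Forcing` for the forcing language.

The second part is a theorem about actual objects: whenever the principle holds, `𝔟 = 𝔡` and
there are a set of reals `X` of cardinality less than `𝔟` and a Tychonoff Hurewicz space `Y` such
that `X × Y` is not Menger. So the answers to both questions are negative.
-/

set_option autoImplicit false

namespace Pool.Agent.Results.MP_7c0f46_gt.ForcedNegative

open Set Filter Cardinal Pool.Agent.H752R3 Pool.Agent.W635.CHDefs

/-- The bounding number `𝔟`. -/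
noncomputable def bNumber : Cardinal.{0} :=
  sInf {κ | ∃ B : Set (ℕ → ℕ), (∀ g : ℕ → ℕ, ∃ f ∈ B, ¬ ∀ᶠ n in atTop, f n ≤ g n) ∧ #B = κ}

/-- The dominating number `𝔡`. -/
noncomputable def dNumber : Cardinal.{0} :=
  sInf {κ | ∃ D : Set (ℕ → ℕ), (∀ g : ℕ → ℕ, ∃ f ∈ D, ∀ᶠ n in atTop, g n ≤ f n) ∧ #D = κ}

/-- (1) There is a notion of forcing `P` all of whose conditions force the principle (for some
well-ordered set `K` and disjoint bounded subsets `A`, `A'` of `K`).
(2) If the principle holds, then `𝔟 = 𝔡`, and there are a set of reals `X` with `|X| < 𝔟` and a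
Tychonoff space `Y` which is Hurewicz (hence Menger) such that `X × Y` is neither Menger nor
Hurewicz. -/
theorem result :
    (∃ (P : Type) (_ : Preorder P) (K : Type) (_ : LinearOrder K) (_ : WellFoundedLT K)
      (A A' : Set K), Nonempty P ∧ Disjoint A A' ∧ (∃ γ : K, ∀ k ∈ A ∪ A', k < γ) ∧
        ∀ p : P, p ∈ ForcedPrinciple P K A A') ∧
    (∀ (K : Type) [LinearOrder K] [WellFoundedLT K] (A A' : Set K) (w : K → ℕ → Bool)
      (f : K → ℕ → ℕ), Disjoint A A' → (∃ γ : K, ∀ k ∈ A ∪ A', k < γ) →
        Principle K A A' w f →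
        bNumber = dNumber ∧ ∃ X : Set ℝ, #X < bNumber ∧ ∃ (Y : Type) (_ : TopologicalSpace Y),
          T35Space Y ∧ HurewiczSp Y ∧ MengerSp Y ∧
            ¬ HurewiczSp (X × Y) ∧ ¬ MengerSp (X × Y)) := by
  refine ⟨Pool.Agent.W635.CH.exists_forcing, ?_⟩
  intro K _ _ A A' w f hAA hγ h
  obtain ⟨h1, h2⟩ := Pool.Agent.W635.CHZfc.numbers h
  have h1' : bNumber = #K := h1
  have h2' : dNumber = #K := h2
  obtain ⟨X, Z, h3, h4, h5⟩ := Pool.Agent.W635.CHZfc.exists_bad h hAA hγ
  refine ⟨h1'.trans h2'.symm, X, by rw [h1']; exact h3, Mich Z X, inferInstance, inferInstance,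
    h4, h4.toMenger, fun h6 => h5 h6.toMenger, h5⟩

end Pool.Agent.Results.MP_7c0f46_gt.ForcedNegative
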